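import Pool.Agent.Helper9.SK.St

/-! # Project SK, module NUM: from the weighted sum to the number of `k` -/

set_option autoImplicit false

noncomputable section

namespace Pool.Agent.Helper86.SK

open Pool.Agent.Helper9.SK
open Finset ArithmeticFunction MeasureTheory
open Pool.Agent.Helper48.BK (ex th Pz Vz lz gs Sx Apx)
open Pool.Agent.Helper60.GP (IsB II Err JJ)
open Pool.Agent.Helper15.AB (Th)
open Pool.Agent.Helper58.SU (dsc StWinu)

private theorem wt_nonneg_NUM {ω : ℝ → ℝ} (h : IsB ω) (x : ℝ) (n : ℕ) : 0 ≤ wt ω x n :=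
  mul_nonneg vonMangoldt_nonneg (h.nonneg _)

private theorem wt_le_NUM {ω : ℝ → ℝ} (h : IsB ω) (x : ℝ) (n : ℕ) : wt ω x n ≤ Λ n / 2 := by
  unfold wt
  have h1 : (0 : ℝ) ≤ Λ n := vonMangoldt_nonneg
  have h2 := mul_le_mul_of_nonneg_left (h.le_half (Real.log (n / x))) h1
  linarith

private theorem mem_II_NUM {x : ℝ} (hx : 0 ≤ x) {n : ℕ} (hn : n ∈ II x) :
    1 ≤ n ∧ (n : ℝ) ≤ 3 * x := by
  unfold II at hn
  rw [mem_Icc] at hn
  exact ⟨hn.1, (Nat.le_floor_iff (by positivity)).1 hn.2⟩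

private theorem card_II_NUM {x : ℝ} (hx : 0 ≤ x) : ((II x).card : ℝ) ≤ 3 * x := by
  unfold II
  rw [Nat.card_Icc, Nat.add_sub_cancel]
  exact Nat.floor_le (by positivity)

private theorem wt_le_log_NUM {ω : ℝ → ℝ} (h : IsB ω) {x L : ℝ} (hx : 1 ≤ x)
    (hL : Real.log (3 * x) ≤ L) {n : ℕ} (hn : n ∈ II x) : wt ω x n ≤ L / 2 := by
  obtain ⟨h1, h2⟩ := mem_II_NUM (by linarith) hn
  have h3 : (0 : ℝ) < n := by exact_mod_cast h1
  have h4 : Λ n ≤ Real.log n := vonMangoldt_le_log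
  have h5 : Real.log n ≤ Real.log (3 * x) := Real.log_le_log h3 h2
  have h6 := wt_le_NUM h x n
  linarith

private theorem wt_supp_NUM {ω : ℝ → ℝ} (h : IsB ω) {y : ℝ} (hy : 0 < y) {n : ℕ} (hn : 1 ≤ n)
    (hlt : (n : ℝ) < y) : wt ω y n = 0 := by
  unfold wt
  have h1 : (0 : ℝ) < n := by exact_mod_cast hn
  have h2 : Real.log ((n : ℝ) / y) < 0 := by
    apply Real.log_neg (by positivity)
    rw [div_lt_one hy]
    exact hlt
  rw [h.supp _ (fun hm => absurd hm.1 (not_le.2 h2)), mul_zero]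

private theorem sum_np_NUM {ω : ℝ → ℝ} (h : IsB ω) {x L : ℝ} (hx : 1 ≤ x)
    (hL : Real.log (3 * x) ≤ L) :
    ∑ a ∈ (II x).filter (fun a => ¬ a.Prime), wt ω x a ≤ 2 * √x * L := by
  have h1 : ∑ a ∈ (II x).filter (fun a => ¬ a.Prime), wt ω x a ≤
      ∑ a ∈ (II x).filter (fun a => ¬ a.Prime), (1 / 2) * Λ a := by
    refine Finset.sum_le_sum fun a _ => ?_
    have := wt_le_NUM h x a
    linarith
  have h2 := Chebyshev.psi_sub_theta_le (x := 3 * x) (by linarith)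
  rw [Chebyshev.psi_sub_theta_eq_sum_not_prime] at h2
  have h3 : (II x).filter (fun a => ¬ a.Prime) = (Ioc 0 ⌊3 * x⌋₊).filter (fun a => ¬ a.Prime) := by
    unfold II
    congr 1
  rw [← Finset.mul_sum, h3] at h1
  rw [h3]
  have h4 : √(3 * x) ≤ 2 * √x := by
    have h5 : (2 : ℝ) * √x = √(4 * x) := by
      rw [Real.sqrt_mul (by norm_num), show (4 : ℝ) = 2 ^ 2 by norm_num, Real.sqrt_sq (by norm_num)]
    rw [h5]
    exact Real.sqrt_le_sqrt (by linarith)
  have h6 : 0 ≤ Real.log (3 * x) := Real.log_nonneg (by linarith)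
  have h7 : √(3 * x) * Real.log (3 * x) ≤ 2 * √x * L :=
    mul_le_mul h4 hL h6 (by positivity)
  linarith

private theorem ff_le_NUM {a : ℕ} {x : ℝ} (ha : 1 ≤ a) (hax : (a : ℝ) ≤ 3 * x) :
    ((ff a : ℕ) : ℝ) ≤ 27 * x ^ 2 := by
  have h1 : (1 : ℝ) ≤ a := by exact_mod_cast ha
  unfold ff
  push_cast
  nlinarith

private theorem sigma_sq_NUM {p : ℕ} (hp : p.Prime) : sigma 1 (p ^ 2) = ff p := by
  rw [sigma_one_apply_prime_pow hp]
  unfold ff
  simp [Finset.sum_range_succ]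
  ring

private theorem sigma_NUM {p q : ℕ} (hp : p.Prime) (hq : q.Prime) (hne : p ≠ q) :
    sigma 1 ((p * q) ^ 2) = ff p * ff q := by
  rw [mul_pow, isMultiplicative_sigma.map_mul_of_coprime
    (Nat.Coprime.pow 2 2 ((Nat.coprime_primes hp hq).2 hne)), sigma_sq_NUM hp, sigma_sq_NUM hq]

/-- the real estimate -/
private theorem core_NUM {ω : ℝ → ℝ} (h : IsB ω) {x y L : ℝ} {v : ℕ} (hx : 1 ≤ x) (hxy : x ≤ y)
    (hLx : Real.log (3 * x) ≤ L) (hLy : Real.log (3 * y) ≤ L) (hL0 : 0 < L)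
    (hm : ∀ a ∈ II x, ∀ b ∈ II y, th (v + ff a * ff b) ≤ 2 * L) (hbig : 12 * L ^ 5 ≤ √x) :
    rS ω x y th v ≤ L ^ 3 * ((((II x) ×ˢ (II y)).filter (fun w => w.1.Prime ∧ w.2.Prime ∧
      y ≤ (w.2 : ℝ) ∧ (v + ff w.1 * ff w.2).Prime)).card : ℝ) + x * y / L ^ 2 := by
  classical
  have hy : 1 ≤ y := hx.trans hxy
  have hth0 : ∀ n, 0 ≤ th n := by
    intro n
    unfold th
    split_ifs
    · exact Real.log_natCast_nonneg n
    · exact le_rfl
  -- pointwise bound
  have hpt : ∀ a ∈ II x, ∀ b ∈ II y, wt ω x a * wt ω y b * th (v + ff a * ff b) ≤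
      (if (a.Prime ∧ b.Prime ∧ y ≤ (b : ℝ) ∧ (v + ff a * ff b).Prime) then L ^ 3 else 0) +
      (if ¬ a.Prime then wt ω x a else 0) * L ^ 2 + L ^ 2 * (if ¬ b.Prime then wt ω y b else 0) := by
    intro a ha b hb
    have wa0 := wt_nonneg_NUM h x a
    have wb0 := wt_nonneg_NUM h y b
    have wa1 := wt_le_log_NUM h hx hLx ha
    have wb1 := wt_le_log_NUM h hy hLy hb
    have t0 := hth0 (v + ff a * ff b)
    have t1 := hm a ha b hb
    have hi1 : 0 ≤ (if (a.Prime ∧ b.Prime ∧ y ≤ (b : ℝ) ∧ (v + ff a * ff b).Prime) then L ^ 3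
        else 0) := by
      split_ifs
      · positivity
      · exact le_rfl
    have hi2 : 0 ≤ (if ¬ a.Prime then wt ω x a else 0) := by
      split_ifs
      · exact le_rfl
      · exact wa0
    have hi3 : 0 ≤ (if ¬ b.Prime then wt ω y b else 0) := by
      split_ifs
      · exact le_rfl
      · exact wb0
    by_cases hpa : a.Prime
    · by_cases hpb : b.Prime
      · by_cases hyb : y ≤ (b : ℝ)
        · by_cases hpm : (v + ff a * ff b).Prime
          · rw [if_pos ⟨hpa, hpb, hyb, hpm⟩]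
            have h1 : wt ω x a * wt ω y b * th (v + ff a * ff b) ≤ (L / 2) * (L / 2) * (2 * L) := by
              gcongr
            have h2 : (L / 2) * (L / 2) * (2 * L) = L ^ 3 / 2 := by ring
            have h3 : 0 < L ^ 3 := by positivity
            have h4 : 0 ≤ (if ¬ a.Prime then wt ω x a else 0) * L ^ 2 := by positivity
            have h5 : 0 ≤ L ^ 2 * (if ¬ b.Prime then wt ω y b else 0) := by positivity
            linarith
          · have h1 : th (v + ff a * ff b) = 0 := by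
              unfold th
              rw [if_neg hpm]
            rw [h1, mul_zero]
            positivity
        · rw [wt_supp_NUM h (by linarith) (mem_II_NUM (by linarith) hb).1 (not_le.1 hyb)]
          rw [mul_zero, zero_mul]
          positivity
      · rw [if_pos (show ¬ b.Prime from hpb)]
        have h1 : wt ω x a * wt ω y b * th (v + ff a * ff b) ≤ (L / 2) * wt ω y b * (2 * L) := by
          gcongr
        have h2 : (L / 2) * wt ω y b * (2 * L) = L ^ 2 * wt ω y b := by ring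
        have h4 : 0 ≤ (if ¬ a.Prime then wt ω x a else 0) * L ^ 2 := by positivity
        linarith
    · rw [if_pos (show ¬ a.Prime from hpa)]
      have h1 : wt ω x a * wt ω y b * th (v + ff a * ff b) ≤ wt ω x a * (L / 2) * (2 * L) := by
        gcongr
      have h2 : wt ω x a * (L / 2) * (2 * L) = wt ω x a * L ^ 2 := by ring
      have h5 : 0 ≤ L ^ 2 * (if ¬ b.Prime then wt ω y b else 0) := by positivity
      linarith
  have hsum : rS ω x y th v ≤ ∑ a ∈ II x, ∑ b ∈ II y,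
      ((if (a.Prime ∧ b.Prime ∧ y ≤ (b : ℝ) ∧ (v + ff a * ff b).Prime) then L ^ 3 else 0) +
      (if ¬ a.Prime then wt ω x a else 0) * L ^ 2 + L ^ 2 * (if ¬ b.Prime then wt ω y b else 0)) := by
    unfold rS
    exact Finset.sum_le_sum fun a ha => Finset.sum_le_sum fun b hb => hpt a ha b hb
  refine hsum.trans ?_
  simp only [Finset.sum_add_distrib]
  -- first sum
  have s1 : ∑ a ∈ II x, ∑ b ∈ II y,
      (if (a.Prime ∧ b.Prime ∧ y ≤ (b : ℝ) ∧ (v + ff a * ff b).Prime) then L ^ 3 else 0) =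
      L ^ 3 * ((((II x) ×ˢ (II y)).filter (fun w => w.1.Prime ∧ w.2.Prime ∧
        y ≤ (w.2 : ℝ) ∧ (v + ff w.1 * ff w.2).Prime)).card : ℝ) := by
    rw [← Finset.sum_product' (II x) (II y) (fun a b =>
      (if (a.Prime ∧ b.Prime ∧ y ≤ (b : ℝ) ∧ (v + ff a * ff b).Prime) then L ^ 3 else 0))]
    rw [← Finset.sum_filter, Finset.sum_const, nsmul_eq_mul]
    ring
  have sqx : (0 : ℝ) ≤ √x := Real.sqrt_nonneg x
  have sqy : (0 : ℝ) ≤ √y := Real.sqrt_nonneg y
  have hxx : √x * √x = x := Real.mul_self_sqrt (by linarith)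
  have hyy : √y * √y = y := Real.mul_self_sqrt (by linarith)
  have hsxy : √x ≤ √y := Real.sqrt_le_sqrt hxy
  -- second sum
  have s2 : ∑ a ∈ II x, ∑ _b ∈ II y, (if ¬ a.Prime then wt ω x a else 0) * L ^ 2 ≤
      x * y / (2 * L ^ 2) := by
    have e1 : ∑ a ∈ II x, ∑ _b ∈ II y, (if ¬ a.Prime then wt ω x a else 0) * L ^ 2 =
        ((II y).card : ℝ) * L ^ 2 * ∑ a ∈ (II x).filter (fun a => ¬ a.Prime), wt ω x a := by
      rw [Finset.sum_filter, Finset.mul_sum]
      refine Finset.sum_congr rfl fun a _ => ?_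
      rw [Finset.sum_const, nsmul_eq_mul]
      ring
    rw [e1]
    have h1 := sum_np_NUM h hx hLx
    have h2 := card_II_NUM (x := y) (by linarith)
    have h3 : 0 ≤ ∑ a ∈ (II x).filter (fun a => ¬ a.Prime), wt ω x a :=
      Finset.sum_nonneg fun a _ => wt_nonneg_NUM h x a
    have h4 : ((II y).card : ℝ) * L ^ 2 * ∑ a ∈ (II x).filter (fun a => ¬ a.Prime), wt ω x a ≤
        (3 * y) * L ^ 2 * (2 * √x * L) := by
      gcongr
    refine h4.trans ?_
    rw [le_div_iff₀ (by positivity)]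
    have h5 : 3 * y * L ^ 2 * (2 * √x * L) * (2 * L ^ 2) = (12 * L ^ 5) * (√x * y) := by ring
    rw [h5]
    have h6 : (12 * L ^ 5) * (√x * y) ≤ √x * (√x * y) :=
      mul_le_mul_of_nonneg_right hbig (by positivity)
    have h7 : √x * (√x * y) = x * y := by rw [← mul_assoc, hxx]
    linarith
  -- third sum
  have s3 : ∑ _a ∈ II x, ∑ b ∈ II y, L ^ 2 * (if ¬ b.Prime then wt ω y b else 0) ≤
      x * y / (2 * L ^ 2) := by
    have e1 : ∑ _a ∈ II x, ∑ b ∈ II y, L ^ 2 * (if ¬ b.Prime then wt ω y b else 0) =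
        ((II x).card : ℝ) * L ^ 2 * ∑ b ∈ (II y).filter (fun b => ¬ b.Prime), wt ω y b := by
      rw [Finset.sum_const, nsmul_eq_mul, Finset.sum_filter, ← Finset.mul_sum]
      ring
    rw [e1]
    have h1 := sum_np_NUM h hy hLy
    have h2 := card_II_NUM (x := x) (by linarith)
    have h3 : 0 ≤ ∑ b ∈ (II y).filter (fun b => ¬ b.Prime), wt ω y b :=
      Finset.sum_nonneg fun b _ => wt_nonneg_NUM h y b
    have h4 : ((II x).card : ℝ) * L ^ 2 * ∑ b ∈ (II y).filter (fun b => ¬ b.Prime), wt ω y b ≤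
        (3 * x) * L ^ 2 * (2 * √y * L) := by
      gcongr
    refine h4.trans ?_
    rw [le_div_iff₀ (by positivity)]
    have h5 : 3 * x * L ^ 2 * (2 * √y * L) * (2 * L ^ 2) = (12 * L ^ 5) * (x * √y) := by ring
    rw [h5]
    have h6 : (12 * L ^ 5) * (x * √y) ≤ √y * (x * √y) :=
      mul_le_mul_of_nonneg_right (hbig.trans hsxy) (by positivity)
    have h7 : √y * (x * √y) = x * y := by
      calc √y * (x * √y) = x * (√y * √y) := by ring
        _ = x * y := by rw [hyy]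
    linarith
  have e4 : x * y / L ^ 2 = x * y / (2 * L ^ 2) + x * y / (2 * L ^ 2) := by
    field_simp
    ring
  rw [s1, e4]
  linarith

/-- counting the numbers `k` -/
private theorem cnt_NUM {x y Z : ℝ} {v : ℕ} (hx : 1 ≤ x) (hxy : 3 * x < y)
    (hZ : 81 * (x * y) ^ 2 < Z) :
    (((II x) ×ˢ (II y)).filter (fun w => w.1.Prime ∧ w.2.Prime ∧
      y ≤ (w.2 : ℝ) ∧ (v + ff w.1 * ff w.2).Prime)).card ≤
    {k : ℕ | 0 < k ∧ (k : ℝ) < Z ∧ (v + sigma 1 k).Prime}.ncard := by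
  classical
  set P := ((II x) ×ˢ (II y)).filter (fun w => w.1.Prime ∧ w.2.Prime ∧
      y ≤ (w.2 : ℝ) ∧ (v + ff w.1 * ff w.2).Prime) with hP
  have hx0 : 0 ≤ x := by linarith
  have hy0 : 0 ≤ y := by linarith
  have hmem : ∀ w ∈ P, 1 ≤ w.1 ∧ (w.1 : ℝ) ≤ 3 * x ∧ 1 ≤ w.2 ∧ (w.2 : ℝ) ≤ 3 * y ∧ w.1.Prime ∧
      w.2.Prime ∧ y ≤ (w.2 : ℝ) ∧ (v + ff w.1 * ff w.2).Prime := by
    intro w hw
    rw [hP, Finset.mem_filter, Finset.mem_product] at hw
    obtain ⟨⟨h1, h2⟩, h3⟩ := hw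
    obtain ⟨h4, h5⟩ := mem_II_NUM hx0 h1
    obtain ⟨h6, h7⟩ := mem_II_NUM hy0 h2
    exact ⟨h4, h5, h6, h7, h3⟩
  have hlt : ∀ w ∈ P, ∀ w' ∈ P, w.1 ≠ w'.2 := by
    intro w hw w' hw' he
    obtain ⟨-, h1, -⟩ := hmem w hw
    obtain ⟨-, -, -, -, -, -, h2, -⟩ := hmem w' hw'
    rw [he] at h1
    linarith
  have hinj : Set.InjOn (fun w : ℕ × ℕ => (w.1 * w.2) ^ 2) (P : Set (ℕ × ℕ)) := by
    intro w hw w' hw' he
    obtain ⟨-, -, -, -, hp1, hp2, -, -⟩ := hmem w hw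
    obtain ⟨-, -, -, -, hq1, hq2, -, -⟩ := hmem w' hw'
    have h1 : w.1 * w.2 = w'.1 * w'.2 := Nat.pow_left_injective (n := 2) (by norm_num) he
    have h2 : w.1 ∣ w'.1 * w'.2 := ⟨w.2, h1.symm⟩
    have h3 : w.1 = w'.1 := by
      rcases (Nat.Prime.dvd_mul hp1).1 h2 with h | h
      · exact (Nat.prime_dvd_prime_iff_eq hp1 hq1).1 h
      · exact absurd ((Nat.prime_dvd_prime_iff_eq hp1 hq2).1 h) (hlt w hw w' hw')
    have h4 : w.2 = w'.2 := by
      rw [h3] at h1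
      exact Nat.eq_of_mul_eq_mul_left hq1.pos h1
    exact Prod.ext h3 h4
  have hfin : {k : ℕ | 0 < k ∧ (k : ℝ) < Z ∧ (v + sigma 1 k).Prime}.Finite := by
    refine (Set.finite_Iio (⌈Z⌉₊)).subset ?_
    rintro k ⟨-, hk, -⟩
    exact Nat.lt_ceil.2 hk
  rw [← Finset.card_image_of_injOn hinj, ← Set.ncard_coe_finset]
  refine Set.ncard_le_ncard ?_ hfin
  intro k hk
  rw [Finset.mem_coe, Finset.mem_image] at hk
  obtain ⟨w, hw, rfl⟩ := hk
  obtain ⟨h1, h2, h3, h4, hp1, hp2, hyb, hpm⟩ := hmem w hw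
  refine ⟨by positivity, ?_, ?_⟩
  · push_cast
    have h5 : (w.1 : ℝ) * w.2 ≤ 9 * (x * y) := by
      have h6 : (w.1 : ℝ) * w.2 ≤ (3 * x) * (3 * y) := mul_le_mul h2 h4 (by positivity) (by positivity)
      linarith
    have h7 : ((w.1 : ℝ) * w.2) ^ 2 ≤ (9 * (x * y)) ^ 2 := by
      gcongr
    have h8 : (9 * (x * y)) ^ 2 = 81 * (x * y) ^ 2 := by ring
    linarith
  · rw [sigma_NUM hp1 hp2 (hlt w hw w hw)]
    exact hpm

theorem hNUM : StNum := by
  intro ω hω κ hκ0 hκ1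
  have hev : ∀ᶠ X : ℝ in Filter.atTop, 12 ≤ X ∧ 30 * X ^ (κ / 10) < X ^ (2 * κ / 5) ∧
      12 * Real.log X ^ 5 ≤ X ^ (κ / 20) := by
    have e1 : ∀ᶠ X : ℝ in Filter.atTop, 12 ≤ X := Filter.eventually_ge_atTop 12
    have e2 : ∀ᶠ X : ℝ in Filter.atTop, 30 < X ^ (3 * κ / 10) :=
      (tendsto_rpow_atTop (by positivity)).eventually_gt_atTop 30
    have e3 : ∀ᶠ X : ℝ in Filter.atTop, ‖Real.log X ^ (5 : ℝ)‖ ≤ 1 / 12 * ‖X ^ (κ / 20)‖ :=
      (isLittleO_log_rpow_rpow_atTop 5 (by positivity : (0 : ℝ) < κ / 20)).bound (by norm_num)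
    filter_upwards [e1, e2, e3] with X h1 h2 h3
    have hX : (0 : ℝ) < X := by linarith
    refine ⟨h1, ?_, ?_⟩
    · have h4 : X ^ (2 * κ / 5) = X ^ (3 * κ / 10) * X ^ (κ / 10) := by
        rw [← Real.rpow_add hX]
        congr 1
        ring
      rw [h4]
      exact mul_lt_mul_of_pos_right h2 (by positivity)
    · have h5 : Real.log X ^ (5 : ℝ) = Real.log X ^ 5 := by
        rw [← Real.rpow_natCast]
        norm_num
      have h6 : 0 ≤ Real.log X := Real.log_nonneg (by linarith)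
      rw [h5, Real.norm_of_nonneg (by positivity), Real.norm_of_nonneg (by positivity)] at h3
      linarith
  have hev2 := tendsto_natCast_atTop_atTop.eventually hev
  obtain ⟨X₀, hX₀⟩ := Filter.eventually_atTop.1 hev2
  refine ⟨X₀, ?_⟩
  intro X v hX hv
  obtain ⟨h12, h30, hbig⟩ := hX₀ X hX
  have hXpos : (0 : ℝ) < X := by linarith
  have hX1 : (1 : ℝ) ≤ X := by linarith
  set x : ℝ := xx κ X with hxdef
  set y : ℝ := yy κ X with hydef
  have hx1 : 1 ≤ x := by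
    rw [hxdef]
    unfold xx
    exact Real.one_le_rpow hX1 (by positivity)
  have hxy : 3 * x < y := by
    rw [hxdef, hydef]
    unfold xx yy
    linarith
  have hy0 : 0 < y := by linarith
  have hyX : 3 * y ≤ X := by
    have h1 : (X : ℝ) ^ (2 * κ / 5) ≤ (X : ℝ) ^ (1 : ℝ) :=
      Real.rpow_le_rpow_of_exponent_le hX1 (by linarith)
    rw [Real.rpow_one] at h1
    rw [hydef]
    unfold yy
    have h2 : (0 : ℝ) ≤ (X : ℝ) ^ (2 * κ / 5) := by positivity
    linarith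
  have hprod : (x * y) ^ 2 = (X : ℝ) ^ κ / 100 := by
    have h1 : x * y = (X : ℝ) ^ (κ / 2) / 10 := by
      rw [hxdef, hydef]
      unfold xx yy
      rw [← mul_div_assoc, ← Real.rpow_add hXpos]
      congr 2
      ring
    rw [h1, div_pow, ← Real.rpow_natCast ((X : ℝ) ^ (κ / 2)), ← Real.rpow_mul hXpos.le]
    norm_num
  have hκX : (X : ℝ) ^ κ ≤ X := by
    have h1 : (X : ℝ) ^ κ ≤ (X : ℝ) ^ (1 : ℝ) := Real.rpow_le_rpow_of_exponent_le hX1 hκ1.le
    rwa [Real.rpow_one] at h1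
  have hsq : √x = (X : ℝ) ^ (κ / 20) := by
    rw [hxdef]
    unfold xx
    rw [Real.sqrt_eq_rpow, ← Real.rpow_mul hXpos.le]
    congr 1
    ring
  have hL0 : 0 < Real.log X := Real.log_pos (by linarith)
  have hm : ∀ a ∈ II x, ∀ b ∈ II y, th (v + ff a * ff b) ≤ 2 * Real.log X := by
    intro a ha b hb
    obtain ⟨a1, a2⟩ := mem_II_NUM (by linarith) ha
    obtain ⟨b1, b2⟩ := mem_II_NUM hy0.le hb
    have h1 := ff_le_NUM a1 a2
    have h2 := ff_le_NUM b1 b2
    have h3 : ((ff a * ff b : ℕ) : ℝ) ≤ 8 * X := by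
      push_cast
      have h4 : (ff a : ℝ) * ff b ≤ (27 * x ^ 2) * (27 * y ^ 2) :=
        mul_le_mul h1 h2 (by positivity) (by positivity)
      have h5 : (27 * x ^ 2) * (27 * y ^ 2) = 729 * (x * y) ^ 2 := by ring
      rw [h5, hprod] at h4
      linarith
    have h6 : (v : ℝ) ≤ 4 * X := by exact_mod_cast hv
    unfold th
    split_ifs with hpm
    · have h7 : ((v + ff a * ff b : ℕ) : ℝ) ≤ (X : ℝ) ^ 2 := by
        have h8 : ((v + ff a * ff b : ℕ) : ℝ) = (v : ℝ) + ((ff a * ff b : ℕ) : ℝ) := by push_cast; ring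
        rw [h8]
        nlinarith
      have h9 : (0 : ℝ) < ((v + ff a * ff b : ℕ) : ℝ) := by exact_mod_cast hpm.pos
      have h10 := Real.log_le_log h9 h7
      rw [Real.log_pow] at h10
      exact_mod_cast h10
    · positivity
  have hLy : Real.log (3 * y) ≤ Real.log X := Real.log_le_log (by positivity) hyX
  have hLx : Real.log (3 * x) ≤ Real.log X := Real.log_le_log (by positivity) (by linarith)
  have h1 := core_NUM hω (v := v) hx1 (by linarith) hLx hLy hL0 hm (by rw [hsq]; exact hbig)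
  have h2 := cnt_NUM (v := v) (Z := (X : ℝ) ^ κ) hx1 hxy (by
    rw [hprod]
    have : (0 : ℝ) < (X : ℝ) ^ κ := by positivity
    linarith)
  have h3 : ((((II x) ×ˢ (II y)).filter (fun w => w.1.Prime ∧ w.2.Prime ∧
      y ≤ (w.2 : ℝ) ∧ (v + ff w.1 * ff w.2).Prime)).card : ℝ) ≤
      (({k : ℕ | 0 < k ∧ (k : ℝ) < (X : ℝ) ^ κ ∧ (v + sigma 1 k).Prime}.ncard : ℕ) : ℝ) := by
    exact_mod_cast h2
  have h4 := mul_le_mul_of_nonneg_left h3 (by positivity : 0 ≤ Real.log X ^ 3)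
  linarith

end Pool.Agent.Helper86.SK
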